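import Pool.Agent.Lib.helper20.OntoL1

namespace Pool.Agent.Results.MP_36ff06_lc.Embeds

open Pool.Agent.Lib.helper20.OntoL1

/-- The Grzegorczyk axiom. -/
def Grz : Set (MF ℕ) :=
  {(MF.box ((MF.box ((MF.var 0).imp (.box (.var 0)))).imp (.var 0))).imp (.var 0)}

theorem result (ι : ℕ → ℕ) (hι : Function.Injective ι) :
    ∃ F : MF (Fin 2), ∀ φ : LF, L1 φ ↔ Normal Grz (trans ι F φ) := by
  refine ⟨chi, faithful ?_ ι hι⟩
  intro x hx V u
  obtain rfl : x = _ := hx
  simp only [MF.imp, Holds]
  by_contra h
  push Not at h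
  obtain ⟨h1, h2⟩ := h
  have key : ∀ w, R u w → (∀ z, R w z → z ≠ w → ∀ y, R z y → V 0 y) → V 0 w := by
    intro w r hw
    by_contra hn
    rcases h1 w r with ⟨z, r', h3, y, r'', h4⟩ | h3
    · exact h4 (hw z r' (fun e => hn (e ▸ h3)) y r'')
    · exact hn h3
  have ht : V 0 .top := key .top (Or.inr (Or.inr rfl)) fun z r hz => by
    rcases r with rfl | r | rfl
    · exact absurd rfl hz
    · cases r
    · exact absurd rfl hz
  have htt : ∀ y, R .top y → V 0 y := by
    rintro y (rfl | r | rfl)
    · exact ht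
    · cases r
    · exact ht
  have hl : ∀ o, R u (.leaf o) → V 0 (.leaf o) := fun o r => key _ r fun z r' hz => by
    rcases r' with rfl | r' | rfl
    · exact absurd rfl hz
    · cases r'
    · exact htt
  cases u with
  | top => exact h2 ht
  | leaf o => exact h2 (hl o (Or.inl rfl))
  | root =>
    refine h2 (key _ (Or.inl rfl) fun z _ hz y r => ?_)
    cases z with
    | root => exact absurd rfl hz
    | top => exact htt y r
    | leaf o =>
      rcases r with rfl | r | rfl
      · exact hl o (Or.inr (Or.inl rfl))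
      · cases r
      · exact ht

end Pool.Agent.Results.MP_36ff06_lc.Embeds
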